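import Pool.Agent.H670R3.Main
import Pool.Agent.H670R3.T_ME

/-!
# Angular resolution of planar graphs, drawn with crossings, is complete for `∃ℝ`

The definitions are in `Pool.Agent.H670R3.Prob` (drawings, angular resolution, planar graphs, the
decision problem `PLANARAR`), `Pool.Agent.H670R2.OrthDefs` (graphs given by adjacency lists) and
`Pool.Agent.ER.Defs` (the existential theory of the reals and the class `∃ℝ`).

Sketch of the hardness proof (threshold `π / 6`).

* *Frames* (`T_FE`).  The neighbours of a vertex with twelve neighbours are seen in twelve equally
  spaced directions; adjacent vertices of this kind have the same directions.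
* *Books* (`T_BK`).  Two adjacent such vertices with eight common neighbours see their other
  neighbours in the three directions that point away from the partner.  A closed quadrangle
  `P v Y R` with such a pair `v Y` is a trapezoid with base angles `π / 6` (an *ear* of the edge
  `P R`).
* *Crosses* (`T_GS`).  Two ears on an edge fix three consecutive directions at its end, so four
  such edges at a vertex use all twelve directions and form right angles; the gadget passes this on
  to four ports on the two lines of the cross.
* *Grid* (`T_CO`, `T_GR`).  A grid with rectangular holes all of whose vertices are crosses (except
  four vertices on the boundary of each hole) is drawn with rectangular cells.  The cross in a hole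
  makes the lines through two pairs of boundary points orthogonal, a quadratic relation between
  the sides of the hole.
* *Arithmetic* (`T_SA`, `T_AR`).  Square holes copy and add lengths, holes of another shape
  multiply; so solvability of systems of polynomial equations is reduced to the drawing problem.
* *Drawings* (`T_XY`, `T_CG`, `T_CA`, `T_G1`, `T_G2`, `T_G3`, `T_GA`, `T_GB`).  Conversely small
  copies of an explicit drawing of the gadget are glued into the grid drawing; another explicit
  drawing of the gadget, without crossings, shows that the graph is planar.
* The map is computable in polynomial time (`T_P1`, `T_P2`); membership in `∃ℝ` is proved in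
  `T_ME`.
-/

namespace Pool.Agent.Results.MP_a4368a_lc.PlanarAngularResolution

open Pool.Agent.NPC Pool.Agent.NPC.ER Pool.Agent.H670R2 Pool.Agent.H670R3

/-- The angular resolution problem restricted to planar input graphs, with crossings allowed in the
drawings, is `∃ℝ`-complete; moreover, already for the fixed threshold `π / 6` every problem of `∃ℝ`
reduces to it by a polynomial-time reduction whose values are planar graphs. -/
theorem result :
    ERComplete PLANARAR ∧
    ∀ L, InER L → ∃ f : List Bool → List (List ℕ), PolyTime (fun w => bits (f w)) ∧
      ∀ w, ∃ h : IsGraph (f w), IsPlanar (graphOf (f w) h) ∧
        (w ∈ L ↔ HasDrawing (Real.pi / 6) (graphOf (f w) h)) :=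
  ⟨⟨mem_ok, Pool.Agent.NPC.H670R2.planar_hard all_steps⟩,
    Pool.Agent.NPC.H670R2.planar_hard6 all_steps⟩

end Pool.Agent.Results.MP_a4368a_lc.PlanarAngularResolution
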